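import Pool.Agent.H79.TD.Stm
import Pool.Agent.H15.TF.CIB

/-!
# Project TD (helper79), modules BRK and FRE (helper39)
-/

set_option autoImplicit false

open MvPolynomial Module

namespace Pool.Agent.H39.TD

open Pool.Agent.H77.TF Pool.Agent.H79.TD Pool.Agent.H15.TF

variable {K : Type} [Field K] {ν : Type}

section graded

attribute [local instance] MvPolynomial.gradedAlgebra

theorem comp_mul_lt (p r : MvPolynomial (Fin 3) K) (m e : ℕ) (hp : p.IsHomogeneous m) (h : e < m) :
    homogeneousComponent e (p * r) = 0 := by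
  have h0 := DirectSum.coe_decompose_mul_of_left_mem_of_not_le (homogeneousSubmodule (Fin 3) K)
    (i := m) (n := e) (a := p) (b := r) hp (by omega)
  have h1 : ((DirectSum.decompose (homogeneousSubmodule (Fin 3) K) (p * r)) e :
      MvPolynomial (Fin 3) K) = homogeneousComponent e (p * r) :=
    decomposition.decompose'_apply _ _
  rwa [h1] at h0

end graded

theorem lin_ne (a : Fin 3 → K) (ha : a ≠ 0) : lin a ≠ 0 := by
  classical
  intro h
  apply ha
  funext i
  have h1 := congrArg (eval (Pi.single i (1 : K))) h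
  rw [eval_lin, map_zero] at h1
  simpa [Pi.single_apply] using h1

theorem Q_ne [Fintype ν] (A : ν → Fin 3 → K) (hA : Simple A) : ∏ i, lin (A i) ≠ 0 :=
  Finset.prod_ne_zero_iff.2 fun i _ => lin_ne (A i) (hA.1 i)

theorem Q_hom [Fintype ν] (A : ν → Fin 3 → K) :
    (∏ i, lin (A i)).IsHomogeneous (Fintype.card ν) := by
  have := MvPolynomial.IsHomogeneous.prod (Finset.univ : Finset ν) (fun i => lin (A i))
    (fun _ => 1) (fun i _ => lin_hom (A i))
  simpa using this

/-- the normalised field of a form which vanishes at the uncovered points -/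
theorem fld (hDD3 : S_DD3) (hMR3 : S_MR3) [Fintype K] [Fintype ν] (A : ν → Fin 3 → K)
    (hA : Simple A) (i₀ : ν) (u : ℕ) (f : MvPolynomial (Fin 3) K) (hf0 : f ≠ 0) (hf : f ∈ VD A u) :
    Fintype.card K + 1 ≤ u + Fintype.card ν ∧ ∃ φ : Fin 3 → MvPolynomial (Fin 3) K, φ ∈ LD A ∧
      (∀ i, (φ i).IsHomogeneous (u + Fintype.card ν - (Fintype.card K + 1))) ∧
      evl (A i₀) φ = 0 ∧ D3 φ = f * ∏ i, lin (A i) := by
  obtain ⟨hfh, hfv⟩ := hf
  have hv : ∀ x : Fin 3 → K, eval x (f * ∏ i, lin (A i)) = 0 := by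
    intro x
    rw [map_mul]
    by_cases hx : x ∈ Pts A
    · rw [hfv x hx, zero_mul]
    · have : eval x (∏ i, lin (A i)) = 0 := by
        by_contra hne
        exact hx ((mem_Pts_iff A x).2 hne)
      rw [this, mul_zero]
  obtain ⟨φ₀, hD, hd, hh⟩ := hMR3 K (f * ∏ i, lin (A i)) (u + Fintype.card ν)
    (hfh.mul (Q_hom A)) hv
  have hL : φ₀ ∈ LD A := (hDD3 K ν A hA φ₀).2 (by rw [hD]; exact dvd_mul_left _ _)
  obtain ⟨φ, h1, h2, h3, h4⟩ := adjust A i₀ φ₀ _ hL hh
  exact ⟨hd (mul_ne_zero hf0 (Q_ne A hA)), φ, h1, h2, h3, by rw [h4, hD]⟩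

theorem t_BRK (hDD3 : S_DD3) (hMR3 : S_MR3) (hKR3 : S_KR3) (hCOR : S_COR) : S_BRK := by
  intro K _ _ ν _ _ A α e f g hA hf0 hf hmin hg hsum
  by_cases hg0 : g = 0
  · rw [hg0]
    exact dvd_zero _
  obtain ⟨i₀⟩ : Nonempty ν := inferInstance
  obtain ⟨hd1, φ, -, hφh, hφe, hφD⟩ := fld hDD3 hMR3 A hA i₀ α f hf0 hf
  obtain ⟨hd2, ψ, -, hψh, hψe, hψD⟩ := fld hDD3 hMR3 A hA i₀ e g hg0 hg
  have hD0 : D3 (g • φ - f • ψ) = 0 := by
    rw [D3_sub, D3_smul, D3_smul, hφD, hψD]
    ring
  obtain ⟨m, hm⟩ : ∃ m, m = e + α + Fintype.card ν - (Fintype.card K + 1) := ⟨_, rfl⟩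
  have hhom : ∀ i, ((g • φ - f • ψ) i).IsHomogeneous m := by
    intro i
    have h1 := hg.1.mul (hφh i)
    have h2 := hf.1.mul (hψh i)
    rw [show e + (α + Fintype.card ν - (Fintype.card K + 1)) = m by omega] at h1
    rw [show α + (e + Fintype.card ν - (Fintype.card K + 1)) = m by omega] at h2
    exact h1.sub h2
  have hy0 : g • φ - f • ψ = 0 := by
    obtain ⟨a, γ, hy⟩ := (hKR3 K (g • φ - f • ψ) hD0).1
    have hc : ∀ i, (g • φ - f • ψ) i = homogeneousComponent m (X i * a) := by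
      intro i
      have h1 := homogeneousComponent_eq_self (hhom i)
      have h2 : (g • φ - f • ψ) i = X i * a + X i ^ Fintype.card K * γ := by
        rw [hy]
        simp [frob]
        ring
      have h3 : homogeneousComponent m (X i ^ Fintype.card K * γ : MvPolynomial (Fin 3) K) = 0 :=
        comp_mul_lt _ _ (Fintype.card K) m (isHomogeneous_X_pow i _) (by omega)
      rw [← h1, h2, map_add, h3, add_zero]
    rcases Nat.eq_zero_or_pos m with h0 | hpos
    · funext i
      rw [hc i, h0, comp_mul_lt _ _ 1 0 (isHomogeneous_X K i) (by omega)]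
      rfl
    · obtain ⟨m', hm'⟩ : ∃ m', m = 1 + m' := ⟨m - 1, by omega⟩
      have hy2 : g • φ - f • ψ = homogeneousComponent m' a • frob K 3 0 := by
        funext i
        rw [hc i, hm', comp_mul _ _ _ _ (isHomogeneous_X K i)]
        simp [frob]
        ring
      have h1 := congrArg (evl (A i₀)) hy2
      rw [evl_sub, evl_smul, evl_smul, evl_smul, hφe, hψe, evl_frob0, mul_zero, mul_zero,
        sub_zero] at h1
      have h2 : homogeneousComponent m' a = 0 := by
        rcases mul_eq_zero.1 h1.symm with h | h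
        · exact h
        · exact absurd h (lin_ne _ (hA.1 i₀))
      rw [hy2, h2, zero_smul]
  exact hCOR K ν A α f g φ ψ hf0 hf hmin hφD (sub_eq_zero.1 hy0)

theorem t_FRE (hDD3 : S_DD3) (hMR3 : S_MR3) (hKR3 : S_KR3) (hSAI : S_SAI) (hCOR : S_COR) :
    S_FRE := by
  intro K _ _ ν _ _ A u w f g hA hf0 hf hmin hg hfg hsum
  have hg0 : g ≠ 0 := by
    rintro rfl
    exact hfg (dvd_zero _)
  obtain ⟨i₀⟩ : Nonempty ν := inferInstance
  obtain ⟨hd1, φ, hφL, hφh, hφe, hφD⟩ := fld hDD3 hMR3 A hA i₀ u f hf0 hf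
  obtain ⟨hd2, ψ, hψL, hψh, hψe, hψD⟩ := fld hDD3 hMR3 A hA i₀ w g hg0 hg
  rw [show u + Fintype.card ν - (Fintype.card K + 1) = Fintype.card K - w by omega] at hφh
  rw [show w + Fintype.card ν - (Fintype.card K + 1) = Fintype.card K - u by omega] at hψh
  have hD0 : D3 (g • φ - f • ψ) = 0 := by
    rw [D3_sub, D3_smul, D3_smul, hφD, hψD]
    ring
  have hhom : ∀ i, ((g • φ - f • ψ) i).IsHomogeneous (Fintype.card K) := by
    intro i
    have h1 := hg.1.mul (hφh i)
    have h2 := hf.1.mul (hψh i)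
    rw [show w + (Fintype.card K - w) = Fintype.card K by omega] at h1
    rw [show u + (Fintype.card K - u) = Fintype.card K by omega] at h2
    exact h1.sub h2
  obtain ⟨α, γ, hαγ⟩ := (hKR3 K (g • φ - f • ψ) hD0).2 hhom
  by_cases hγ : γ = 0
  · exfalso
    rw [hγ, C_0, zero_smul, add_zero] at hαγ
    have h1 := congrArg (evl (A i₀)) hαγ
    rw [evl_sub, evl_smul, evl_smul, evl_smul, hφe, hψe, evl_frob0, mul_zero, mul_zero,
      sub_zero] at h1
    have hα : α = 0 := by
      rcases mul_eq_zero.1 h1.symm with h | h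
      · exact h
      · exact absurd h (lin_ne _ (hA.1 i₀))
    rw [hα, zero_smul, sub_eq_zero] at hαγ
    exact hfg (hCOR K ν A u f g φ ψ hf0 hf hmin hφD hαγ)
  · have hdet : (Matrix.of ![frob K 3 0, φ, ψ]).det = C γ * ∏ i, lin (A i) := by
      have key : f * (Matrix.of ![frob K 3 0, φ, ψ]).det = f * (C γ * ∏ i, lin (A i)) := by
        have h5 : f • ψ = g • φ - α • frob K 3 0 - (C γ : MvPolynomial (Fin 3) K) • frob K 3 1 := by
          rw [sub_sub, ← hαγ]
          abel
        have c0 := congrFun h5 0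
        have c1 := congrFun h5 1
        have c2 := congrFun h5 2
        simp only [Pi.smul_apply, Pi.sub_apply, smul_eq_mul] at c0 c1 c2
        have hφD'' := hφD
        rw [D3_expand] at hφD''
        rw [Matrix.det_fin_three]
        simp only [Matrix.of_apply, Matrix.cons_val_zero, Matrix.cons_val_one, Matrix.cons_val]
        linear_combination (frob K 3 0 1 * φ 2 - frob K 3 0 2 * φ 1) * c0 +
          (frob K 3 0 2 * φ 0 - frob K 3 0 0 * φ 2) * c1 +
          (frob K 3 0 0 * φ 1 - frob K 3 0 1 * φ 0) * c2 + C γ * hφD''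
      exact mul_left_cancel₀ hf0 key
    have hF : frob K 3 0 ∈ LD A := by
      intro i
      rw [evl_frob0]
    obtain ⟨b, hb⟩ := hSAI K 3 ν A hA ![frob K 3 0, φ, ψ] γ hγ
      (by
        intro k
        fin_cases k
        · exact hF
        · exact hφL
        · exact hψL) hdet
    refine ⟨b, ?_⟩
    intro j i
    rw [hb j]
    fin_cases j
    · simpa [frob] using isHomogeneous_X K i
    · exact hφh i
    · exact hψh i

end Pool.Agent.H39.TD
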