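import Pool.Agent.H79.TD.Stm4

/-!
# The modules DTF and DMP of the project EX (helper79), by helper39
-/

set_option autoImplicit false
set_option linter.all false

namespace Pool.Agent.H39.TD

open MvPolynomial Module Pool.Agent.H77.TF Pool.Agent.H77.GR Pool.Agent.H79.TD

theorem map_evlR {R R' : Type} [CommRing R] [CommRing R'] (φ : R →+* R') (a : Fin 3 → R)
    (v : Fin 3 → MvPolynomial (Fin 3) R) :
    MvPolynomial.map φ (evlR a v) = evlR (fun i => φ (a i)) (fun j => MvPolynomial.map φ (v j)) := by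
  simp [evlR]

theorem map_linR {R R' : Type} [CommRing R] [CommRing R'] (φ : R →+* R') (a : Fin 3 → R) :
    MvPolynomial.map φ (linR a) = linR (fun i => φ (a i)) := by
  simp [linR]

theorem t_DMP : S_DMP := by
  intro S T _ _ f n A e h
  obtain ⟨V, c, hc, hh, hd, hdet⟩ := h
  refine ⟨fun j i => MvPolynomial.map f (V j i), f c, hc.map f, fun j i => (hh j i).map f,
    fun j i => ?_, ?_⟩
  · have h1 := map_dvd (MvPolynomial.map f) (hd j i)
    rw [map_linR, map_evlR] at h1
    exact h1
  · have h1 := congrArg (MvPolynomial.map f) hdet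
    rw [RingHom.map_det, map_mul, map_C, map_prod] at h1
    simp only [map_linR] at h1
    exact h1

theorem t_DTF (hSAC : S_SAC) (hSAI : S_SAI) : S_DTF := by
  intro K _ n A e hA
  constructor
  · rintro ⟨b, hb⟩
    obtain ⟨c, hc, hdet⟩ := hSAC K (Fin n) A hA b
    exact ⟨fun k => (b k : Fin 3 → MvPolynomial (Fin 3) K), c, isUnit_iff_ne_zero.2 hc, hb,
      fun j i => (b j).2 i, hdet⟩
  · rintro ⟨V, c, hc, hh, hd, hdet⟩
    obtain ⟨b, hb⟩ := hSAI K 3 (Fin n) A hA V c hc.ne_zero (fun k i => hd k i) hdet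
    exact ⟨b, fun j i => by rw [hb]; exact hh j i⟩

end Pool.Agent.H39.TD
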