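import Pool.Agent.H79.TD.Stm2

/-!
# The module EXT of the project EX (helper79), by helper39
-/

set_option autoImplicit false
set_option linter.all false

namespace Pool.Agent.H39.TD

open MvPolynomial Module Pool.Agent.H77.TF Pool.Agent.H79.TD

theorem lin_homog {K : Type} [Field K] {l : ℕ} (a : Fin l → K) : (lin a).IsHomogeneous 1 := by
  refine IsHomogeneous.sum _ _ _ fun j _ => ?_
  simpa using (isHomogeneous_C (Fin l) (a j)).mul (isHomogeneous_X K j)

theorem t_EXT (hRES : S_RES) (hBIN : S_BIN) (hPRI : S_PRI) : S_EXT := by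
  intro K _ ν _ A e φ hA hch hφ hh hne h3 h2
  -- a plane with good restriction
  have h1 : ∃ i, ∃ r l, ¬ lin (A i) ∣ X r * φ l - X l * φ r := by
    by_contra hcon
    push Not at hcon
    obtain ⟨r, l, hrl⟩ := hne
    have hP : X r * φ l - X l * φ r ≠ 0 := sub_ne_zero.2 hrl
    have hd : (∏ i, lin (A i)) ∣ X r * φ l - X l * φ r := by
      refine Finset.prod_dvd_of_isRelPrime (fun i _ j _ hij => ?_) fun i _ => hcon i r l
      have hp := (hPRI K 3 (A i) (hA.1 i))
      refine (hp.1.irreducible.isRelPrime_iff_not_dvd).2 fun hdv => ?_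
      obtain ⟨c, hc⟩ := hp.2 (A j) hdv
      exact hA.2 j i (Ne.symm hij) c hc
    obtain ⟨g, hg⟩ := hd
    have hne1 : (∏ i, lin (A i)) ≠ 0 := fun h => hP (by rw [hg, h, zero_mul])
    have hne2 : g ≠ 0 := fun h => hP (by rw [hg, h, mul_zero])
    have hd1 : (∏ i, lin (A i)).IsHomogeneous (Fintype.card ν) := by
      have := IsHomogeneous.prod Finset.univ (fun i => lin (A i)) (fun _ => 1)
        fun i _ => lin_homog (A i)
      simpa using this
    have hd2 : (X r * φ l - X l * φ r).IsHomogeneous (1 + e) :=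
      ((isHomogeneous_X K r).mul (hh l)).sub ((isHomogeneous_X K l).mul (hh r))
    have h4 := hd1.totalDegree hne1
    have h5 := hd2.totalDegree hP
    rw [hg, totalDegree_mul_of_isDomain hne1 hne2, h4] at h5
    omega
  obtain ⟨i, hi⟩ := h1
  obtain ⟨κ, _, b, μ, v, W, hb, hv, hne', hμ, hd, hs, hW⟩ := hRES K ν A e i φ hA hφ hh hi
  obtain ⟨k₀, hk⟩ := hBIN K κ b μ e v hb hch hv hne' hμ hd (by omega) (by omega)
  refine ⟨W k₀, (hW k₀).1, ?_⟩
  rw [(hW k₀).2]
  omega

end Pool.Agent.H39.TD
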