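import Pool.Agent.H79.TD.Stm6

/-!
# The module LNC of the project SV (helper79), by helper39
-/

set_option autoImplicit false
set_option linter.all false

namespace Pool.Agent.H39.TD

open MvPolynomial Module Pool.Agent.H77.TF Pool.Agent.H79.TD

theorem t_LNC (hRS2 : S_RS2) (hBI2 : S_BI2) : S_LNC := by
  intro K _ _ n A c e φ hn hA hc hcA hch hφ hφc hh hne
  classical
  let A' : Option (Fin n) → Fin 3 → K := fun o => o.elim c A
  have hS : Simple A' := by
    refine ⟨?_, ?_⟩
    · rintro (_ | i)
      · exact hc
      · exact hA.1 i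
    · rintro (_ | i) (_ | j) hij t
      · exact absurd rfl hij
      · exact hcA j t
      · intro h
        have h' : A i = t • c := h
        have ht : t ≠ 0 := by
          rintro rfl
          rw [zero_smul] at h'
          exact hA.1 i h'
        refine hcA i t⁻¹ ?_
        rw [h', smul_smul, inv_mul_cancel₀ ht, one_smul]
      · exact hA.2 i j (fun h => hij (by rw [h])) t
  have hL : φ ∈ LD A' := by
    rintro (_ | i)
    · exact hφc
    · exact hφ i
  obtain ⟨κ, _, b, μ, v, W, hb, hv, hv', hμ, hd, hs, hW, hWi, hWc⟩ :=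
    hRS2 K (Option (Fin n)) A' e none φ hS hL hh hne
  have hs' : ∑ k, μ k = n := by
    rw [Fintype.card_option, Fintype.card_fin] at hs
    omega
  have hle : ∀ k, μ k ≤ Nat.card {i // A i ∈ W k} := by
    intro k
    let f : {l : Option (Fin n) // A' l ∈ W k} → Option {i // A i ∈ W k} := fun l =>
      match l with
      | ⟨none, _⟩ => none
      | ⟨some i, h⟩ => some ⟨i, h⟩
    have hf : Function.Injective f := by
      rintro ⟨_ | i, h⟩ ⟨_ | j, h'⟩ hij
      · rfl
      · exact absurd hij (by simp [f])
      · exact absurd hij (by simp [f])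
      · have h1 : (⟨i, h⟩ : {i // A i ∈ W k}) = ⟨j, h'⟩ := Option.some_injective _ hij
        have h2 : i = j := congrArg Subtype.val h1
        subst h2
        rfl
    have h1 := Nat.card_le_card_of_injective f hf
    rw [Finite.card_option, (hW k).2] at h1
    omega
  rcases hBI2 K κ b μ e v hb hch hv hv' hμ hd (by omega) with ⟨k₀, hk⟩ | h2
  · left
    refine ⟨W k₀, (hW k₀).1, ?_⟩
    have := hle k₀
    omega
  · right
    have hfin : Finite {W : Submodule K (Fin 3 → K) // finrank K W = 2 ∧ c ∈ W ∧ ∃ i, A i ∈ W} :=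
      Finite.of_injective (fun U => ((U.1 : Submodule K (Fin 3 → K)) : Set (Fin 3 → K)))
        fun U V h => Subtype.ext (SetLike.coe_injective h)
    have hex : ∀ k, ∃ i, A i ∈ W k := by
      intro k
      have h3 := hle k
      have h4 := hμ k
      have h5 : 0 < Nat.card {i // A i ∈ W k} := by omega
      obtain ⟨⟨i, hi⟩⟩ := (Nat.card_pos_iff.1 h5).1
      exact ⟨i, hi⟩
    have h6 := Nat.card_le_card_of_injective
      (fun k : κ => (⟨W k, (hW k).1, hWc k, hex k⟩ :
        {W : Submodule K (Fin 3 → K) // finrank K W = 2 ∧ c ∈ W ∧ ∃ i, A i ∈ W}))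
      (fun k l h => hWi (congrArg Subtype.val h))
    rw [Nat.card_eq_fintype_card] at h6
    omega

end Pool.Agent.H39.TD
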